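import Mathlib

/-!
# Project DU (MP_a463e5_al): the algebra of a register machine

Paper proof: file DU_proof.md in the team store.
-/

namespace Pool.Agent.Helper70.DU

/-- The chain `0 < ★ < 2`. -/
inductive K3
  | lo
  | st
  | hi
  deriving DecidableEq, Fintype

namespace K3

def toNat : K3 → ℕ
  | lo => 0
  | st => 1
  | hi => 2

def inf (a b : K3) : K3 := if a.toNat ≤ b.toNat then a else b

def sup (a b : K3) : K3 := if a.toNat ≤ b.toNat then b else a

end K3

/-- Flags. -/
inductive Flag
  | und
  | pas
  | act
  deriving DecidableEq, Fintype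

/-- The flat part of an element. -/
inductive Sym (Q : Type)
  | bot
  | dlt
  | acc
  | cfg (q : Q) (z : Flag)
  deriving DecidableEq

/-- Register names: base, top, machine registers. -/
inductive Reg (R : ℕ)
  | b
  | t
  | c (i : Fin R)
  deriving DecidableEq, Fintype

/-- Kinds of instructions. -/
inductive Kind (R : ℕ)
  | inc (i : Fin R)
  | dec (i : Fin R)
  | zero (i : Fin R)
  | copy (i j : Fin R)

/-- A (non-deterministic) register machine whose instructions act injectively on states. -/
structure Mach (R : ℕ) (Q W : Type) where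
  kind : W → Kind R
  next : W → Q → Option Q
  inj : ∀ w q q' r, next w q = some r → next w q' = some r → q = q'
  q0 : Q
  qh : Q

/-- `KStep k c c'`: register contents `c` may change to `c'` by an instruction of kind `k`. -/
def KStep {R : ℕ} : Kind R → (Fin R → ℕ) → (Fin R → ℕ) → Prop
  | .inc i, c, c' => c' = Function.update c i (c i + 1)
  | .dec i, c, c' => 0 < c i ∧ c' = Function.update c i (c i - 1)
  | .zero i, c, c' => c i = 0 ∧ c' = c
  | .copy i j, c, c' => c' = Function.update c i (c j)

/-- Configurations reachable with all register contents at most `N` (`N = none`: no bound). -/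
inductive Reach {R : ℕ} {Q W : Type} (T : Mach R Q W) (N : Option ℕ) : Q → (Fin R → ℕ) → Prop
  | start : Reach T N T.q0 (fun _ => 0)
  | step (q q' : Q) (c c' : Fin R → ℕ) (w : W) :
      Reach T N q c → T.next w q = some q' → KStep (T.kind w) c c' →
      (∀ n ∈ N, ∀ i, c' i ≤ n) → Reach T N q' c'

/-- The machine halts. -/
def Halts {R : ℕ} {Q W : Type} (T : Mach R Q W) : Prop := ∃ c, Reach T none T.qh c

/-- Elements of the algebra. -/
structure El (R : ℕ) (Q : Type) where
  k : K3
  r : Reg R → K3
  f : Sym Q

/-- Labels. -/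
inductive Label
  | L
  | R
  | B
  | N
  deriving DecidableEq

/-- The pairs of views used by the label functions. -/
def GoodPair (z : Bool) (v w : K3 × K3) : Prop :=
  v ≠ w ∧
    if z then v.1 ≠ K3.st ∧ w.1 ≠ K3.st
    else (v.1 = K3.st ∧ w.1 = K3.st) ∨ (v.1.toNat < w.1.toNat ∧ w.2.toNat < v.2.toNat)

instance (z : Bool) (v w : K3 × K3) : Decidable (GoodPair z v w) := by
  unfold GoodPair; cases z <;> infer_instance

/-- The label functions. -/
def lam (z : Bool) (v w u : K3 × K3) : Label :=
  if GoodPair z v w then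
    if z = true ∧ u.1 = K3.st then Label.N
    else if u = v then Label.R
    else if u = w then Label.L
    else Label.B
  else Label.B

/-- Operation names. -/
inductive Op (R : ℕ) (W : Type)
  | comb
  | inf
  | sup
  | pr (i : Reg R)
  | g
  | lab (z : Bool) (v w : K3 × K3)
  | fix (i : Reg R)
  | merge
  | init
  | build
  | instr (w : W)
  | unb
  | fin

/-- Flag change when the top moves right. -/
def wBuild : K3 → K3 → Flag → Option Flag
  | .lo, .lo, z => some z
  | .hi, .hi, z => some z
  | .st, .lo, .act => some .act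
  | .hi, .lo, .und => some .pas
  | .hi, .st, .und => some .act
  | _, _, _ => none

/-- Flag check for a register moving right. -/
def wInc : K3 → K3 → Flag → Option Flag
  | .lo, .lo, z => some z
  | .hi, .hi, z => some z
  | .st, .lo, .act => some .act
  | .hi, .lo, .pas => some .pas
  | .hi, .st, .act => some .act
  | _, _, _ => none

/-- Flag check for a register moving left. -/
def wDec : K3 → K3 → Flag → Option Flag
  | .lo, .lo, z => some z
  | .hi, .hi, z => some z
  | .lo, .st, .act => some .act
  | .lo, .hi, .pas => some .pas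
  | .st, .hi, .act => some .act
  | _, _, _ => none

/-- Flag change when the top moves left. -/
def wUnb : K3 → K3 → Flag → Option Flag
  | .lo, .lo, z => some z
  | .hi, .hi, z => some z
  | .lo, .st, .act => some .act
  | .lo, .hi, .pas => some .und
  | .st, .hi, .act => some .und
  | _, _, _ => none

variable {R : ℕ} {Q W : Type} [DecidableEq Q]

/-- Apply a partial map of states and a partial map of flags; everything else goes to `bot`. -/
def shiftF (s : Q → Option Q) (w : Flag → Option Flag) : Sym Q → Sym Q
  | .cfg q z =>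
    match s q, w z with
    | some q', some z' => .cfg q' z'
    | _, _ => .bot
  | _ => .bot

/-- The flat meet. -/
def fmeet (x y : Sym Q) : Sym Q := if x = y then x else .bot

/-- The partial meet of elements (meaningful when `k` and `r` agree). -/
def meet (x y : El R Q) : El R Q := ⟨x.k, x.r, fmeet x.f y.f⟩

/-- The `f`-part of `fin`. -/
def finF (qh : Q) (k : K3) : Sym Q → Sym Q
  | .cfg q z =>
    if q = qh then
      match k, z with
      | .st, .act => .acc
      | .lo, .und => .acc
      | .hi, .und => .acc
      | _, _ => .bot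
    else .bot
  | _ => .bot

/-- The instruction operations. -/
def instrOp (s : Q → Option Q) : Kind R → El R Q → El R Q → El R Q
  | .inc i, a, c =>
    ⟨a.k, Function.update a.r (.c i) c.k, shiftF s (wInc (a.r (.c i)) c.k) a.f⟩
  | .dec i, a, c =>
    ⟨a.k, Function.update a.r (.c i) c.k, shiftF s (wDec (a.r (.c i)) c.k) a.f⟩
  | .zero i, a, _ => ⟨a.k, a.r, if a.r (.c i) = a.r .b then shiftF s some a.f else .bot⟩
  | .copy i j, a, _ => ⟨a.k, Function.update a.r (.c i) (a.r (.c j)), shiftF s some a.f⟩

/-- The operations; all are written with four arguments `a b c d`. -/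
def opM (T : Mach R Q W) : Op R W → El R Q → El R Q → El R Q → El R Q → El R Q
  | .comb, a, b, _, _ => ⟨a.k, b.r, b.f⟩
  | .inf, a, b, _, _ => ⟨a.k.inf b.k, a.r, a.f⟩
  | .sup, a, b, _, _ => ⟨a.k.sup b.k, a.r, a.f⟩
  | .pr i, a, _, _, _ => ⟨a.r i, a.r, a.f⟩
  | .g, a, b, _, _ => ⟨a.k, a.r, if b.k = .st then .bot else .dlt⟩
  | .lab z v w, a, b, c, d =>
    ⟨a.k, a.r,
      match lam z v w (c.k, d.k) with
      | .L => a.f
      | .R => if a.r = b.r then b.f else .bot
      | .B => if a.r = b.r then fmeet a.f b.f else .bot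
      | .N => .bot⟩
  | .fix i, a, c, _, _ => ⟨a.k, Function.update a.r i c.k, if a.r i = c.k then a.f else .bot⟩
  | .merge, a, b, c, h =>
    ⟨a.k, a.r,
      if h.f = .acc then
        if c.k = .st then (if a.r = b.r then b.f else .bot) else a.f
      else .bot⟩
  | .init, a, _, _, _ => ⟨a.k, fun _ => a.k, .cfg T.q0 (if a.k = .st then .act else .und)⟩
  | .build, a, c, _, _ =>
    ⟨a.k, Function.update a.r .t c.k, shiftF some (wBuild (a.r .t) c.k) a.f⟩
  | .instr w, a, c, _, _ => instrOp (T.next w) (T.kind w) a c
  | .unb, a, c, _, _ =>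
    ⟨a.k, Function.update a.r .t c.k,
      shiftF (fun q => if q = T.qh then some q else none) (wUnb (a.r .t) c.k) a.f⟩
  | .fin, a, _, _, _ => ⟨a.k, a.r, if a.r .t = a.r .b then finF T.qh (a.r .t) a.f else .bot⟩

/-- A set of words closed under the operations. -/
def Closed (T : Mach R Q W) {X : Type} (A : Set (X → El R Q)) : Prop :=
  ∀ o : Op R W, ∀ a ∈ A, ∀ b ∈ A, ∀ c ∈ A, ∀ d ∈ A,
    (fun x => opM T o (a x) (b x) (c x) (d x)) ∈ A

/-! ### Words used when the machine does not halt -/

/-- The pointer word with its star at `j`. -/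
def ptr {m : ℕ} (j x : Fin m) : K3 := if x < j then .lo else if x = j then .st else .hi

/-- The invariant: the word `f`, with registers pointing at `p`, describes a reachable configuration. -/
def Inv (T : Mach R Q W) {m : ℕ} (p : Reg R → Fin m) (f : Fin m → Sym Q) : Prop :=
  ∃ (q : Q) (P : Finset (Fin m)), p .b ∈ P ∧ p .t ∈ P ∧ (∀ i, p (.c i) ∈ P) ∧
    (∀ x ∈ P, p .b ≤ x ∧ x ≤ p .t) ∧
    Reach T none q (fun i => (P.filter (fun x => x < p (.c i))).card) ∧
    ∀ x, f x = .cfg q (if x ∈ P then .act else if p .b < x ∧ x < p .t then .pas else .und)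

/-- The legitimate words of length `m`. -/
def Am (T : Mach R Q W) (m : ℕ) : Set (Fin m → El R Q) :=
  {a | ∃ (j : Fin m) (p : Reg R → Fin m), (∀ x, (a x).k = ptr j x) ∧
    (∀ x i, (a x).r i = ptr (p i) x) ∧
    ((∃ x, (a x).f = .bot) ∨ Inv T p (fun x => (a x).f))}

/-- `h` is a homomorphism on the closed set `A` of words (its values outside `A` do not matter). -/
def HomOn (T : Mach R Q W) {X : Type} (A : Set (X → El R Q)) (h : (X → El R Q) → El R Q) : Prop :=
  ∀ o : Op R W, ∀ a ∈ A, ∀ b ∈ A, ∀ c ∈ A, ∀ d ∈ A,
    h (fun x => opM T o (a x) (b x) (c x) (d x)) = opM T o (h a) (h b) (h c) (h d)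

/-- The word with `k` and all registers equal to the pointer word `j`, and `f = bot`. -/
def wd (R : ℕ) (Q : Type) {m : ℕ} (j : Fin m) : Fin m → El R Q :=
  fun x => ⟨ptr j x, fun _ => ptr j x, .bot⟩

/-! ### Words used when the machine halts -/

/-- The view relation: `u` points strictly before `v` (or both are constant and equal). -/
def Vw (u v : K3) : Prop := u = .hi ∨ v = .lo

/-- `e` has the `r`-part and the `f`-part of `al` on `S`. -/
def Ag {X : Type} (al : X → El R Q) (S : Finset X) (e : X → El R Q) : Prop :=
  ∀ x ∈ S, (e x).r = (al x).r ∧ (e x).f = (al x).f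

/-- The flags of the tape given by the chain `ch 0, …, ch j`. -/
noncomputable def fl {X : Type} (ch : ℕ → X → El R Q) (j : ℕ) (s : X) : Flag := by
  classical
  exact if ∃ i ≤ j, (ch i s).k = K3.st then Flag.act
    else if (ch 0 s).k = K3.hi ∧ (ch j s).k = K3.lo then Flag.pas else Flag.und

/-- Partial meets of points of `X` exist. -/
def HasMeets {X : Type} (A : Set (X → El R Q)) : Prop :=
  ∀ y y' : X, (∀ a ∈ A, (a y).k = (a y').k) → ∃ z : X, ∀ a ∈ A, a z = meet (a y) (a y')

/-- `al` agrees on all `n`-tuples of points with members of `A`. -/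
def Loc {X : Type} (A : Set (X → El R Q)) (n : ℕ) (al : X → El R Q) : Prop :=
  ∀ x : Fin n → X, ∃ a ∈ A, ∀ i, a (x i) = al (x i)

/-- `S` is a minimal set of points on which no member of `A` agrees with `al`. -/
def MinBad {X : Type} (A : Set (X → El R Q)) (al : X → El R Q) (S : Finset X) : Prop :=
  (¬ ∃ e ∈ A, Ag al S e) ∧ ∀ S' : Finset X, S'.card < S.card → ∃ e ∈ A, Ag al S' e

/-- Some member of `A` has different `k` at `y` and `y'`. -/
def Sep {X : Type} (A : Set (X → El R Q)) (y y' : X) : Prop := ∃ k ∈ A, (k y).k ≠ (k y').k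

end Pool.Agent.Helper70.DU
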