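import Mathlib

/-!
# Natural dualities: definitions for MP_a463e5_al
-/

namespace Pool.Agent.Helper70.DU

universe u

/-- A finite algebra with underlying set `{0, …, size - 1}` and finitely many fundamental
operations; the `i`-th operation has arity `ar i`. -/
structure FinAlg where
  size : ℕ
  size_pos : 0 < size
  numOps : ℕ
  ar : Fin numOps → ℕ
  op : ∀ i : Fin numOps, (Fin (ar i) → Fin size) → Fin size

section General

variable {ι : Type} {ar : ι → ℕ}

/-- `h` is a homomorphism between algebras with operations `opA`, `opB` of the same arities. -/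
def IsHom {A : Type*} {B : Type*} (opA : ∀ i, (Fin (ar i) → A) → A)
    (opB : ∀ i, (Fin (ar i) → B) → B) (h : A → B) : Prop :=
  ∀ i (a : Fin (ar i) → A), h (opA i a) = opB i (fun j => h (a j))

/-- The (non-empty) algebra `A` is in `ISP(M)`: it embeds into a power `M ^ I`. -/
def InISP {A : Type u} {M : Type} (opM : ∀ i, (Fin (ar i) → M) → M)
    (opA : ∀ i, (Fin (ar i) → A) → A) : Prop :=
  Nonempty A ∧ ∃ (I : Type u) (e : A → I → M), Function.Injective e ∧
    ∀ x : I, IsHom opA opM (fun a => e a x)

/-- The set `r ⊆ M ^ n` is (the underlying set of) a subalgebra of `M ^ n`. -/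
def IsSubalg {M : Type} (opM : ∀ i, (Fin (ar i) → M) → M) {n : ℕ} (r : Set (Fin n → M)) : Prop :=
  r.Nonempty ∧ ∀ i (v : Fin (ar i) → Fin n → M), (∀ j, v j ∈ r) →
    (fun x => opM i (fun j => v j x)) ∈ r

/-- A structure on `M`: sets of total operations, partial operations and relations (finitary). -/
structure AlterEgo (M : Type) where
  G : Set (Σ n : ℕ, (Fin n → M) → M)
  H : Set (Σ n : ℕ, (Fin n → M) →. M)
  R : Set (Σ n : ℕ, Set (Fin n → M))

/-- The structure has only finitely many operations, partial operations and relations. -/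
def AlterEgo.FiniteType {M : Type} (E : AlterEgo M) : Prop :=
  E.G.Finite ∧ E.H.Finite ∧ E.R.Finite

/-- The graph of an operation. -/
def graphOp {M : Type} {n : ℕ} (g : (Fin n → M) → M) : Set (Fin (n + 1) → M) :=
  {v | v (Fin.last n) = g (fun i => v i.castSucc)}

/-- The graph of a partial operation. -/
def graphPOp {M : Type} {n : ℕ} (g : (Fin n → M) →. M) : Set (Fin (n + 1) → M) :=
  {v | v (Fin.last n) ∈ g (fun i => v i.castSucc)}

/-- `r` is one of the relations of the structure or a graph of one of its (partial) operations. -/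
def AlterEgo.Has {M : Type} (E : AlterEgo M) {n : ℕ} (r : Set (Fin n → M)) : Prop :=
  (∃ g ∈ E.G, (⟨n, r⟩ : Σ n : ℕ, Set (Fin n → M)) = ⟨g.1 + 1, graphOp g.2⟩) ∨
  (∃ g ∈ E.H, (⟨n, r⟩ : Σ n : ℕ, Set (Fin n → M)) = ⟨g.1 + 1, graphPOp g.2⟩) ∨
  (⟨n, r⟩ : Σ n : ℕ, Set (Fin n → M)) ∈ E.R

/-- The structure is algebraic over the algebra. -/
def AlterEgo.Algebraic {M : Type} (E : AlterEgo M) (opM : ∀ i, (Fin (ar i) → M) → M) : Prop :=
  ∀ (n : ℕ) (r : Set (Fin n → M)), E.Has r → IsSubalg opM r

/-- The dual `D(A)`: the set of homomorphisms `A → M`, with the topology induced from `M ^ A`. -/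
def Dual {A : Type u} {M : Type} (opA : ∀ i, (Fin (ar i) → A) → A)
    (opM : ∀ i, (Fin (ar i) → M) → M) : Type u :=
  {h : A → M // IsHom opA opM h}

instance {A : Type u} {M : Type} [TopologicalSpace M] (opA : ∀ i, (Fin (ar i) → A) → A)
    (opM : ∀ i, (Fin (ar i) → M) → M) : TopologicalSpace (Dual opA opM) :=
  inferInstanceAs (TopologicalSpace {h : A → M // IsHom opA opM h})

/-- `φ : D(A) → M` preserves the relation `r`. -/
def Preserves {A : Type u} {M : Type} {opA : ∀ i, (Fin (ar i) → A) → A}
    {opM : ∀ i, (Fin (ar i) → M) → M} (φ : Dual opA opM → M) {n : ℕ} (r : Set (Fin n → M)) :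
    Prop :=
  ∀ x : Fin n → Dual opA opM, (∀ a : A, (fun i => (x i).1 a) ∈ r) → (fun i => φ (x i)) ∈ r

/-- The structure `E` yields a natural duality on `ISP(M)`. -/
def AlterEgo.Yields {M : Type} [TopologicalSpace M] (E : AlterEgo M)
    (opM : ∀ i, (Fin (ar i) → M) → M) : Prop :=
  ∀ (A : Type u) (opA : ∀ i, (Fin (ar i) → A) → A), InISP opM opA →
    ∀ φ : Dual opA opM → M, Continuous φ →
      (∀ (n : ℕ) (r : Set (Fin n → M)), E.Has r → Preserves φ r) →
      ∃ a : A, ∀ x : Dual opA opM, φ x = x.1 a

end General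

/-- The finite algebra `M` is dualisable by a structure with finitely many operations, partial
operations and relations. (`Fin M.size` carries the discrete topology.) -/
def FinAlg.FinDualisable (M : FinAlg) : Prop :=
  ∃ E : AlterEgo (Fin M.size), E.FiniteType ∧ E.Algebraic M.op ∧ AlterEgo.Yields.{u} E M.op

/-- The finite algebra `M` is dualisable by a structure with arbitrarily many operations, partial
operations and relations. -/
def FinAlg.Dualisable (M : FinAlg) : Prop :=
  ∃ E : AlterEgo (Fin M.size), E.Algebraic M.op ∧ AlterEgo.Yields.{u} E M.op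

/-- The table of an operation: the list of its values at all argument tuples; the tuple
`(a 0, …, a (r - 1))` has number `∑ a i * s ^ i`. -/
def table {s r : ℕ} (f : (Fin r → Fin s) → Fin s) : List ℕ :=
  List.ofFn (fun i : Fin (s ^ r) => (f (finFunctionFinEquiv.symm i) : ℕ))

/-- The code of a finite algebra: its size and the list of arities and tables. -/
def FinAlg.code (M : FinAlg) : ℕ × List (ℕ × List ℕ) :=
  (M.size, List.ofFn (fun i : Fin M.numOps => (M.ar i, table (M.op i))))

end Pool.Agent.Helper70.DU
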