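import Pool.Agent.Helper70.DU.Defs
import Pool.Agent.Helper70.DU.Statement

/-!
# Project DU: register programs, machines with input, the coded algebra
-/

namespace Pool.Agent.Helper70.DU

universe u

/-! ### Structured programs on registers named by natural numbers -/

/-- Programs. `loop i p`: while register `i` is not zero, decrement it and run `p`. -/
inductive WP
  | skip
  | inc (i : ℕ)
  | copy (i j : ℕ)
  | seq (p q : WP)
  | loop (i : ℕ) (p : WP)

/-- `Ev p c c'`: the program `p` started in `c` stops in `c'`. -/
inductive Ev : WP → (ℕ → ℕ) → (ℕ → ℕ) → Prop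
  | skip (c : ℕ → ℕ) : Ev .skip c c
  | inc (i : ℕ) (c : ℕ → ℕ) : Ev (.inc i) c (Function.update c i (c i + 1))
  | copy (i j : ℕ) (c : ℕ → ℕ) : Ev (.copy i j) c (Function.update c i (c j))
  | seq (p q : WP) (c c' c'' : ℕ → ℕ) : Ev p c c' → Ev q c' c'' → Ev (.seq p q) c c''
  | loop0 (i : ℕ) (p : WP) (c : ℕ → ℕ) : c i = 0 → Ev (.loop i p) c c
  | loop1 (i : ℕ) (p : WP) (c c' c'' : ℕ → ℕ) : 0 < c i →
      Ev p (Function.update c i (c i - 1)) c' → Ev (.loop i p) c' c'' → Ev (.loop i p) c c''

/-- The partial function `f` can be computed from any input registers `ins` (below `base`) into any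
output register `out < base`, changing only `out` and registers `≥ base`. -/
def Impl {n : ℕ} (f : List.Vector ℕ n →. ℕ) : Prop :=
  ∀ (ins : Fin n → ℕ) (out base : ℕ), (∀ i, ins i < base) → out < base →
    ∃ p : WP, ∀ (c : ℕ → ℕ) (y : ℕ), y ∈ f (List.Vector.ofFn (fun i => c (ins i))) →
      ∃ c', Ev p c c' ∧ c' out = y ∧ ∀ r, r < base → r ≠ out → c' r = c r

/-! ### Flat programs -/

/-- Flat instructions. `djz i q`: if register `i` is zero go to `q`, otherwise decrement it and go
to the next instruction. -/
inductive FI
  | inc (i : ℕ)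
  | copy (i j : ℕ)
  | djz (i q : ℕ)
  | jmp (q : ℕ)

/-- Compilation of a program placed at address `a`. -/
def cmp : WP → ℕ → List FI
  | .skip, _ => []
  | .inc i, _ => [.inc i]
  | .copy i j, _ => [.copy i j]
  | .seq p q, a => cmp p a ++ cmp q (a + (cmp p a).length)
  | .loop i p, a =>
    .djz i (a + (cmp p (a + 1)).length + 2) :: (cmp p (a + 1) ++ [.jmp a])

/-- The effect of an instruction at address `a` on the registers `c`. -/
def fexec : FI → ℕ → (ℕ → ℕ) → ℕ × (ℕ → ℕ)
  | .inc i, a, c => (a + 1, Function.update c i (c i + 1))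
  | .copy i j, a, c => (a + 1, Function.update c i (c j))
  | .djz i q, a, c => if c i = 0 then (q, c) else (a + 1, Function.update c i (c i - 1))
  | .jmp q, _, c => (q, c)

/-- One step of the flat program `L`. -/
def FStep (L : List FI) (s t : ℕ × (ℕ → ℕ)) : Prop :=
  ∃ x, L[s.1]? = some x ∧ t = fexec x s.1 s.2

/-- `L` started at address `0` with `n` in register `0` reaches the address `L.length`. -/
def FHalts (L : List FI) (n : ℕ) : Prop :=
  ∃ c, Relation.ReflTransGen (FStep L) (0, Function.update (fun _ => 0) 0 n) (L.length, c)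

/-- All jump targets are at most `L.length` and all registers are at most `r`. -/
def FGood (L : List FI) (r : ℕ) : Prop :=
  ∀ x ∈ L, match x with
    | .inc i => i ≤ r
    | .copy i j => i ≤ r ∧ j ≤ r
    | .djz i q => i ≤ r ∧ q ≤ L.length
    | .jmp q => q ≤ L.length

/-! ### The machine of a flat program with input -/

/-- Instruction names of the machine: `main a z` the instruction at address `a` (`z = true`: the
branch taken by `djz` at zero), `feed`: increment register `0` going down the chain of input
states, `go`: start the program. -/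
inductive MI (D : ℕ)
  | main (a : Fin D) (z : Bool)
  | feed
  | go

/-- Register `i` as an element of `Fin (r + 1)`. -/
def mkR (r i : ℕ) : Fin (r + 1) := ⟨min i r, by omega⟩

/-- Kinds of the instructions. -/
def kindW (L : List FI) (r : ℕ) : MI L.length → Kind (r + 1)
  | .main a z =>
    match L[a], z with
    | .inc i, _ => .inc (mkR r i)
    | .copy i j, _ => .copy (mkR r i) (mkR r j)
    | .djz i _, true => .zero (mkR r i)
    | .djz i _, false => .dec (mkR r i)
    | .jmp _, _ => .copy (mkR r 0) (mkR r 0)
  | .feed => .inc (mkR r 0)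
  | .go => .copy (mkR r 0) (mkR r 0)

/-- Action on states (natural numbers): `0, …, L.length` are the addresses,
`L.length + 1 + j` are the input states. -/
def nextW (L : List FI) : MI L.length → ℕ → Option ℕ
  | .main a z, s =>
    if s = a then
      match L[a], z with
      | .inc _, false => some (a + 1)
      | .copy _ _, false => some (a + 1)
      | .djz _ _, false => some (a + 1)
      | .djz _ q, true => some q
      | .jmp q, false => some q
      | _, true => none
    else none
  | .feed, s => if L.length + 2 ≤ s then some (s - 1) else none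
  | .go, s => if s = L.length + 1 then some 0 else none

theorem nextW_inj (L : List FI) (w : MI L.length) (q q' r : ℕ) (h : nextW L w q = some r)
    (h' : nextW L w q' = some r) : q = q' := by
  cases w with
  | main a z =>
    simp only [nextW] at h h'
    split_ifs at h h' with h1 h2
    · rw [h1, h2]
  | feed =>
    simp only [nextW] at h h'
    split_ifs at h h' with h1 h2
    simp only [Option.some.injEq] at h h'
    omega
  | go =>
    simp only [nextW] at h h'
    split_ifs at h h' with h1 h2
    rw [h1, h2]

/-- Number of states of the machine with input `n`. -/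
def numSt (L : List FI) (n : ℕ) : ℕ := L.length + 2 + n

/-- Restriction to states `< N`. -/
def cutN (N : ℕ) (x : Option ℕ) : Option (Fin N) :=
  match x with
  | some q => if h : q < N then some ⟨q, h⟩ else none
  | none => none

/-- The machine of `L` with input `n` over the states `0, …, L.length + 1 + n`. -/
def machF (L : List FI) (r n : ℕ) : Mach (r + 1) (Fin (numSt L n)) (MI L.length) where
  kind := kindW L r
  next w q := cutN _ (nextW L w q.val)
  inj := by
    intro w q q' x h h'
    have key : ∀ y : Fin (numSt L n), cutN _ (nextW L w y.val) = some x →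
        nextW L w y.val = some x.val := by
      intro y hy
      unfold cutN at hy
      split at hy
      · rename_i z hz
        split_ifs at hy with h1
        simp only [Option.some.injEq] at hy
        rw [hz, ← hy]
      · exact absurd hy (by simp)
    exact Fin.ext (nextW_inj L w _ _ _ (key q h) (key q' h'))
  q0 := ⟨L.length + 1 + n, by unfold numSt; omega⟩
  qh := ⟨L.length, by unfold numSt; omega⟩

/-- The same machine with all natural numbers as states. -/
def machN (L : List FI) (r n : ℕ) : Mach (r + 1) ℕ (MI L.length) where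
  kind := kindW L r
  next w q := nextW L w q
  inj := nextW_inj L
  q0 := L.length + 1 + n
  qh := L.length

/-! ### The coded algebra -/

/-- The finite algebra obtained from `opM T` by transport along `e` with the operations listed by
`en`. -/
def algOf {R : ℕ} {Q W : Type} [DecidableEq Q] (T : Mach R Q W) {s p : ℕ} (hs : 0 < s)
    (e : El R Q ≃ Fin s) (en : Fin p → Op R W) : FinAlg where
  size := s
  size_pos := hs
  numOps := p
  ar := fun _ => 4
  op := fun i v =>
    e (opM T (en i) (e.symm (v 0)) (e.symm (v 1)) (e.symm (v 2)) (e.symm (v 3)))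

/-- The finite-level form of dualisability. -/
def LocalProp {ι : Type} {ar : ι → ℕ} {M : Type} (opM : ∀ i, (Fin (ar i) → M) → M) : Prop :=
  ∃ n : ℕ, ∀ (A : Type) (opA : ∀ i, (Fin (ar i) → A) → A), Finite A → InISP opM opA →
    ∀ φ : Dual opA opM → M,
      (∀ x : Fin n → Dual opA opM, ∃ a : A, ∀ i, φ (x i) = (x i).1 a) →
      ∃ a : A, ∀ x : Dual opA opM, φ x = x.1 a

/-- The elements of `A` determined by the finite set `S`. -/
def Det {ι : Type} {ar : ι → ℕ} {M : Type} {A : Type u} (opM : ∀ i, (Fin (ar i) → M) → M)
    (opA : ∀ i, (Fin (ar i) → A) → A) (S : Finset A) : Set A :=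
  {a | ∃ t : (S → M) → M, ∀ x : Dual opA opM, x.1 a = t (fun s => x.1 s.1)}

/-- The fixed finite part of an element. -/
abbrev Fx (R : ℕ) := K3 × (Reg R → K3) × Flag

/-- Elements of the algebra as pairs (fixed part, state number): `bot, dlt, acc` have number `0`,
`cfg q z` has number `q + 1`. -/
def toFx {R : ℕ} (a : El R ℕ) : Fx R × ℕ :=
  match a.f with
  | .bot => ((a.k, a.r, .und), 0)
  | .dlt => ((a.k, a.r, .pas), 0)
  | .acc => ((a.k, a.r, .act), 0)
  | .cfg q z => ((a.k, a.r, z), q + 1)

/-- The inverse of `toFx`. -/
def ofFx {R : ℕ} (x : Fx R × ℕ) : El R ℕ :=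
  match x with
  | ((k, r, .und), 0) => ⟨k, r, .bot⟩
  | ((k, r, .pas), 0) => ⟨k, r, .dlt⟩
  | ((k, r, .act), 0) => ⟨k, r, .acc⟩
  | ((k, r, z), q + 1) => ⟨k, r, .cfg q z⟩

/-- Number of fixed parts. -/
def CF (R : ℕ) : ℕ := Fintype.card (Fx R)

/-- A numbering of the fixed parts. -/
noncomputable def eFx (R : ℕ) : Fx R ≃ Fin (CF R) := Fintype.equivFin _

/-- The number of an element. -/
noncomputable def encN {R : ℕ} (a : El R ℕ) : ℕ := (eFx R (toFx a).1 : ℕ) + CF R * (toFx a).2

theorem CF_pos (R : ℕ) : 0 < CF R := Fintype.card_pos_iff.mpr ⟨(.lo, fun _ => .lo, .und)⟩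

/-- The element with a given number. -/
noncomputable def decN {R : ℕ} (x : ℕ) : El R ℕ :=
  ofFx ((eFx R).symm ⟨x % CF R, Nat.mod_lt _ (CF_pos R)⟩, x / CF R)

/-- Change of the state type. -/
def mapSym {Q Q' : Type} (g : Q → Q') : Sym Q → Sym Q'
  | .bot => .bot
  | .dlt => .dlt
  | .acc => .acc
  | .cfg q z => .cfg (g q) z

/-- Change of the state type. -/
def mapEl {R : ℕ} {Q Q' : Type} (g : Q → Q') (a : El R Q) : El R Q' := ⟨a.k, a.r, mapSym g a.f⟩

/-- The numerical form of the operations. -/
noncomputable def numOp (L : List FI) (r n : ℕ) (o : Op (r + 1) (MI L.length))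
    (x y z t : ℕ) : ℕ :=
  encN (opM (machN L r n) o (decN x) (decN y) (decN z) (decN t))

/-- The code of the `n`-th algebra, numerically. -/
noncomputable def codeN (L : List FI) (r p : ℕ) (en : Fin p → Op (r + 1) (MI L.length)) (n : ℕ) :
    ℕ × List (ℕ × List ℕ) :=
  ((numSt L n + 1) * CF (r + 1),
    List.ofFn (fun i : Fin p => (4,
      (List.range (((numSt L n + 1) * CF (r + 1)) ^ 4)).map (fun j =>
        numOp L r n (en i) (j % ((numSt L n + 1) * CF (r + 1)))
          (j / ((numSt L n + 1) * CF (r + 1)) % ((numSt L n + 1) * CF (r + 1)))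
          (j / ((numSt L n + 1) * CF (r + 1)) ^ 2 % ((numSt L n + 1) * CF (r + 1)))
          (j / ((numSt L n + 1) * CF (r + 1)) ^ 3 % ((numSt L n + 1) * CF (r + 1)))))))

end Pool.Agent.Helper70.DU
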